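import Pool.Agent.Zk83.SB.Stm2
import Pool.Agent.TH761.EB.Gen

/-!
# The modules N and K: genericity and continuity of the cost
-/

set_option autoImplicit false
set_option linter.all false

open MeasureTheory ProbabilityTheory Filter Topology

namespace Pool.Agent.Zk56.SB

open Pool.Agent.Zk83.SB

variable {d : ℕ}

open Classical in
/-- the bonds which touch `A` -/
noncomputable def touch (A : Finset (Site d)) : Finset (Bond d) :=
  (A ×ˢ Finset.univ) ∪ (A ×ˢ Finset.univ).image
    (fun p : Site d × Fin d => ((p.1 - (Pi.single p.2 (1 : ℤ) : Fin d → ℤ), p.2) : Bond d))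

lemma not_touch {A : Finset (Site d)} {e : Bond d} (h : e ∉ touch A) : e.1 ∉ A ∧ tip e ∉ A := by
  classical
  unfold touch at h
  rw [Finset.mem_union, not_or] at h
  refine ⟨fun h' => h.1 (Finset.mem_product.2 ⟨h', Finset.mem_univ _⟩), fun h' => h.2 ?_⟩
  refine Finset.mem_image.2 ⟨(tip e, e.2), Finset.mem_product.2 ⟨h', Finset.mem_univ _⟩, ?_⟩
  simp [tip]

lemma cost_eq (J : Bond d → ℝ) (σ : Site d → ℝ) (A : Finset (Site d)) :
    cost J σ A = ∑ e ∈ touch A, J e * (σ e.1 * σ (tip e) - flipOn A σ e.1 * flipOn A σ (tip e)) := by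
  unfold cost
  apply finsum_eq_sum_of_support_subset
  intro e he
  by_contra h
  apply he
  obtain ⟨h1, h2⟩ := not_touch (A := A) (e := e) (by simpa using h)
  simp [flipOn, h1, h2]

/-- **Module K.** -/
theorem t_K : StK := by
  intro d A
  simp only [cost_eq]
  have hσ : ∀ x : Site d, Continuous fun p : (Bond d → ℝ) × (Site d → ℝ) => p.2 x :=
    fun x => (continuous_apply x).comp continuous_snd
  have hf : ∀ x : Site d, Continuous fun p : (Bond d → ℝ) × (Site d → ℝ) => flipOn A p.2 x := by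
    intro x
    unfold flipOn
    by_cases hx : x ∈ A
    · simp only [hx, if_true]
      exact (hσ x).neg
    · simp only [hx, if_false]
      exact hσ x
  refine continuous_finset_sum _ fun e _ => ?_
  exact ((continuous_apply e).comp continuous_fst).mul
    (((hσ _).mul (hσ _)).sub ((hf _).mul (hf _)))

/-- **Module N.** -/
theorem t_N : StN := by
  classical
  intro d hd μ _ hμ
  filter_upwards [Pool.Agent.TH761.EB.gen_ae μ hμ (Bond d)] with J hJ
  intro σ hσ hcost
  refine ⟨hσ, fun ρ hρ hfin hne => ?_⟩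
  set A : Finset (Site d) := hfin.toFinset with hA
  have hρA : ρ = flipOn A σ := by
    funext x
    unfold flipOn
    by_cases hx : x ∈ A
    · rw [if_pos hx]
      have h1 : ρ x ≠ σ x := hfin.mem_toFinset.1 hx
      rcases hρ x with h | h <;> rcases hσ x with h' | h'
      · exact absurd (h.trans h'.symm) h1
      · rw [h, h', neg_neg]
      · rw [h, h']
      · exact absurd (h.trans h'.symm) h1
    · rw [if_neg hx]
      by_contra h1
      exact hx (hfin.mem_toFinset.2 h1)
  have hAne : A.Nonempty := by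
    rw [Finset.nonempty_iff_ne_empty]
    intro h
    apply hne
    rw [hρA, h]
    funext x
    simp [flipOn]
  have hval : (∑ᶠ e : Bond d, J e * (σ e.1 * σ (tip e) - ρ e.1 * ρ (tip e))) = cost J σ A := by
    rw [hρA]
    rfl
  rw [hval]
  refine lt_of_le_of_ne (hcost A) ?_
  -- the bonds which leave `A`
  set D : Finset (Bond d) := (touch A).filter fun e => ¬ (e.1 ∈ A ↔ tip e ∈ A) with hD
  set T1 : Finset (Bond d) := D.filter fun e => σ e.1 * σ (tip e) = 1 with hT1
  set T2 : Finset (Bond d) := D.filter fun e => ¬ σ e.1 * σ (tip e) = 1 with hT2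
  have hs : ∀ e : Bond d, ¬ σ e.1 * σ (tip e) = 1 → σ e.1 * σ (tip e) = -1 := by
    intro e h
    rcases hσ e.1 with h1 | h1 <;> rcases hσ (tip e) with h2 | h2
    · exact absurd (by rw [h1, h2, one_mul]) h
    · rw [h1, h2, one_mul]
    · rw [h1, h2, mul_one]
    · exact absurd (by rw [h1, h2]; norm_num) h
  have hterm : ∀ e : Bond d, J e * (σ e.1 * σ (tip e) - flipOn A σ e.1 * flipOn A σ (tip e)) =
      if (e.1 ∈ A ↔ tip e ∈ A) then 0 else 2 * (J e * (σ e.1 * σ (tip e))) := by
    intro e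
    by_cases ha : e.1 ∈ A <;> by_cases hb : tip e ∈ A <;> simp [flipOn, ha, hb] <;> ring
  have hc : cost J σ A = 2 * (∑ e ∈ T1, J e - ∑ e ∈ T2, J e) := by
    rw [cost_eq]
    simp only [hterm]
    have h1 : (∑ e ∈ touch A, if (e.1 ∈ A ↔ tip e ∈ A) then (0 : ℝ) else
        2 * (J e * (σ e.1 * σ (tip e)))) = ∑ e ∈ D, 2 * (J e * (σ e.1 * σ (tip e))) := by
      rw [hD, Finset.sum_filter]
      refine Finset.sum_congr rfl fun e _ => ?_
      by_cases h : (e.1 ∈ A ↔ tip e ∈ A) <;> simp [h]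
    rw [h1, ← Finset.sum_filter_add_sum_filter_not D (fun e => σ e.1 * σ (tip e) = 1)]
    have h2 : (∑ e ∈ D.filter (fun e => σ e.1 * σ (tip e) = 1), 2 * (J e * (σ e.1 * σ (tip e)))) =
        ∑ e ∈ T1, 2 * J e := by
      refine Finset.sum_congr rfl fun e he => ?_
      rw [(Finset.mem_filter.1 he).2]
      ring
    have h3 : (∑ e ∈ D.filter (fun e => ¬ σ e.1 * σ (tip e) = 1), 2 * (J e * (σ e.1 * σ (tip e)))) =
        ∑ e ∈ T2, -(2 * J e) := by
      refine Finset.sum_congr rfl fun e he => ?_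
      rw [hs e (Finset.mem_filter.1 he).2]
      ring
    rw [h2, h3, Finset.sum_neg_distrib, ← Finset.mul_sum, ← Finset.mul_sum]
    ring
  -- there is a bond which leaves `A`
  obtain ⟨e0, he0⟩ : ∃ e, e ∈ D := by
    obtain ⟨x, hx, hmax⟩ := Finset.exists_max_image A (fun x : Site d => x ⟨0, hd⟩) hAne
    refine ⟨(x, ⟨0, hd⟩), ?_⟩
    rw [hD, Finset.mem_filter]
    refine ⟨Finset.mem_union_left _ (Finset.mem_product.2 ⟨hx, Finset.mem_univ _⟩), ?_⟩
    intro h
    have h1 : tip ((x, ⟨0, hd⟩) : Bond d) ∈ A := h.1 hx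
    have h2 := hmax _ h1
    simp [tip] at h2
  have hdis : Disjoint T1 T2 := Finset.disjoint_filter_filter_not D D _
  have hex : ∃ e, e ∈ T1 ∨ e ∈ T2 := by
    refine ⟨e0, ?_⟩
    by_cases h : σ e0.1 * σ (tip e0) = 1
    · exact Or.inl (Finset.mem_filter.2 ⟨he0, h⟩)
    · exact Or.inr (Finset.mem_filter.2 ⟨he0, h⟩)
  have hgen := hJ T1 T2 hdis hex
  rw [hc]
  intro h
  apply hgen
  linarith

end Pool.Agent.Zk56.SB
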